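import Pool.Agent.Helper77.KZ.Defs

/-!
KZ-8 (helper83, for helper77's project KZ, MP_0aa406_nt): flatness of the pattern.
-/

set_option autoImplicit false

namespace Pool.Agent.Helper77.KZ

open Finset
open scoped Pointwise

variable {n : ℕ}

theorem flat_EE_split (g : ZMod n → ℤ) (Y : Finset (ZMod n)) (i j : ZMod n) :
    EE g Y i = ∑ y ∈ cov g Y j, g (i - y) + EE g (rest g Y j) i := by
  unfold EE cov rest
  have := Finset.sum_filter_add_sum_filter_not Y (fun l => g (j - l) ≠ 0) (fun l => g (i - l))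
  simp only [not_not] at this
  exact this.symm

theorem flat_EE_zero {g : ZMod n → ℤ} {X : Finset (ZMod n)} {i : ZMod n} (h : ¬ Meets g X i) :
    EE g X i = 0 := by
  unfold EE
  apply Finset.sum_eq_zero
  intro l hl
  by_contra h0
  exact h ⟨l, hl, h0⟩

theorem overlap_le_one {g : ZMod n → ℤ} {Y : Finset (ZMod n)} (hY : Stuck g Y)
    (hr : ∀ X, Reach g Y X → ∀ k, Meets g X k → EE g X k = 0 ∨ EE g X k = 1 ∨ EE g X k = 2)
    (i j : ZMod n) : |∑ y ∈ cov g Y j, g (i - y)| ≤ 1 := by
  by_cases hj : Meets g Y j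
  · have hreach : Reach g Y (rest g Y j) := Reach.first j hj
    have hsplit := flat_EE_split g Y i j
    by_cases hm : Meets g (rest g Y j) i
    · have hm' : Meets g Y i := by
        obtain ⟨l, hl, h0⟩ := hm
        exact ⟨l, (Finset.mem_filter.mp hl).1, h0⟩
      have h1 := hY i hm'
      rw [abs_le]
      rcases hr _ hreach i hm with h | h | h <;> constructor <;> omega
    · have h0 := flat_EE_zero hm
      by_cases hm' : Meets g Y i
      · have h1 := hY i hm'
        rw [abs_le]
        constructor <;> omega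
      · have h1 := flat_EE_zero hm'
        rw [abs_le]
        constructor <;> omega
  · have h0 : cov g Y j = ∅ := by
      apply Finset.filter_eq_empty_iff.mpr
      intro l hl h
      exact hj ⟨l, hl, h⟩
    rw [h0]
    simp

theorem flat_no_invariant [NeZero n] {d : ZMod n} (hd : d ≠ 0) {X : Finset (ZMod n)}
    (hX : X.Nonempty) (hs : X.card < n.minFac) : ∃ x ∈ X, x + d ∉ X := by
  by_contra hcon
  push Not at hcon
  obtain ⟨x, hx⟩ := hX
  have hmem : ∀ j : ℕ, x + j • d ∈ X := by
    intro j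
    induction j with
    | zero => simpa using hx
    | succ j ih =>
      have := hcon _ ih
      rw [succ_nsmul, ← add_assoc]
      exact this
  have hle : addOrderOf d ≤ X.card := by
    have h1 : ((Finset.range (addOrderOf d)).image (fun j : ℕ => x + j • d)).card
        = addOrderOf d := by
      rw [Finset.card_image_of_injOn, Finset.card_range]
      intro a ha b hb hab
      have hab' : a • d = b • d := by simpa using hab
      exact (nsmul_injOn_Iio_addOrderOf (x := d)) (by simpa using ha) (by simpa using hb) hab'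
    rw [← h1]
    apply Finset.card_le_card
    intro y hy
    obtain ⟨j, -, rfl⟩ := Finset.mem_image.mp hy
    exact hmem j
  have hdvd : addOrderOf d ∣ n := by
    have := addOrderOf_dvd_card (x := d)
    simpa [ZMod.card] using this
  have hne1 : addOrderOf d ≠ 1 := by
    intro h
    exact hd (AddMonoid.addOrderOf_eq_one_iff.mp h)
  have hpos : 0 < addOrderOf d := addOrderOf_pos d
  have h2 : 2 ≤ addOrderOf d := by omega
  have := Nat.minFac_le_of_dvd h2 hdvd
  omega

theorem flat [NeZero n] {g : ZMod n → ℤ} {Y : Finset (ZMod n)} (hne : Y.Nonempty)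
    (hYT : (Y + TT g).card = 2 * Y.card) (hsmall : (Y + TT g).card < n.minFac)
    (hB : ∀ i j : ZMod n, |∑ y ∈ cov g Y j, g (i - y)| ≤ 1) (δ : ZMod n) (hδ : δ ≠ 0) :
    |∑ t, if g (t + δ) ≠ 0 then g t else 0| ≤ 1 := by
  classical
  set κ : ℤ := ∑ t, if g (t + δ) ≠ 0 then g t else 0 with hκ
  have hpos : 0 < Y.card := Finset.card_pos.mpr hne
  have hPne : (Y + TT g).Nonempty := by
    rw [← Finset.card_pos]
    omega
  -- double counting
  have hsum : ∑ i, ∑ y ∈ cov g Y (i + δ), g (i - y) = (Y.card : ℤ) * κ := by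
    have h1 : ∀ i : ZMod n, ∑ y ∈ cov g Y (i + δ), g (i - y)
        = ∑ y ∈ Y, if g (i - y + δ) ≠ 0 then g (i - y) else 0 := by
      intro i
      unfold cov
      rw [Finset.sum_filter]
      apply Finset.sum_congr rfl
      intro y _
      have : i + δ - y = i - y + δ := by ring
      rw [this]
    simp_rw [h1]
    rw [Finset.sum_comm]
    have h2 : ∀ y ∈ Y, ∑ i, (if g (i - y + δ) ≠ 0 then g (i - y) else 0) = κ := by
      intro y _
      rw [hκ]
      exact Fintype.sum_equiv (Equiv.subRight y) _ _ (fun i => rfl)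
    rw [Finset.sum_congr rfl h2, Finset.sum_const, nsmul_eq_mul]
  -- the support
  obtain ⟨x₀, hx₀, hx₀'⟩ := flat_no_invariant hδ hPne hsmall
  have hzero : ∀ i : ZMod n, i ∉ (Y + TT g).erase x₀ → ∑ y ∈ cov g Y (i + δ), g (i - y) = 0 := by
    intro i hi
    apply Finset.sum_eq_zero
    intro y hy
    by_contra h0
    obtain ⟨hyY, hyδ⟩ := Finset.mem_filter.mp hy
    have hi1 : i ∈ Y + TT g := by
      rw [Finset.mem_add]
      exact ⟨y, hyY, i - y, by simp [TT, h0], by ring⟩
    have hi2 : i + δ ∈ Y + TT g := by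
      rw [Finset.mem_add]
      refine ⟨y, hyY, i + δ - y, ?_, by ring⟩
      simp only [TT, Finset.mem_filter, Finset.mem_univ, true_and]
      exact hyδ
    apply hi
    rw [Finset.mem_erase]
    refine ⟨?_, hi1⟩
    rintro rfl
    exact hx₀' hi2
  have hbound : |∑ i, ∑ y ∈ cov g Y (i + δ), g (i - y)| ≤ 2 * (Y.card : ℤ) - 1 := by
    have h1 : ∑ i, ∑ y ∈ cov g Y (i + δ), g (i - y)
        = ∑ i ∈ (Y + TT g).erase x₀, ∑ y ∈ cov g Y (i + δ), g (i - y) := by
      symm
      apply Finset.sum_subset (Finset.subset_univ _)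
      intro i _ hi
      exact hzero i hi
    rw [h1]
    calc |∑ i ∈ (Y + TT g).erase x₀, ∑ y ∈ cov g Y (i + δ), g (i - y)|
        ≤ ∑ i ∈ (Y + TT g).erase x₀, |∑ y ∈ cov g Y (i + δ), g (i - y)| :=
          Finset.abs_sum_le_sum_abs _ _
      _ ≤ ∑ i ∈ (Y + TT g).erase x₀, (1 : ℤ) := Finset.sum_le_sum (fun i _ => hB i (i + δ))
      _ = (((Y + TT g).erase x₀).card : ℤ) := by simp
      _ = 2 * (Y.card : ℤ) - 1 := by
          rw [Finset.card_erase_of_mem hx₀, hYT]
          push_cast [Nat.cast_sub (show 1 ≤ 2 * Y.card by omega)]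
          ring
  rw [hsum, abs_mul, Nat.abs_cast] at hbound
  by_contra hcon
  push Not at hcon
  have h2 : (2 : ℤ) ≤ |κ| := by omega
  have h3 : (Y.card : ℤ) * 2 ≤ (Y.card : ℤ) * |κ| := by
    apply mul_le_mul_of_nonneg_left h2
    positivity
  omega

end Pool.Agent.Helper77.KZ
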